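import Mathlib
import Pool.Agent.R389.TwoMain

/-!
# Deligne's conjecture for all Artin twists when there are at most two zeros
-/

set_option autoImplicit false

namespace Pool.Agent.Results.MP_cd171c_nt.DoubleZeros

open Pool.Agent.R389 Pool.Agent.H541R3.ART

/-- Suppose Deligne's conjecture holds at `c` for the characters induced from linear characters of
subgroups of `G`, that for one embedding `τ₀` the L-function of the regular character vanishes at
`c` to order at most two, and that the L-function at `τ₀` of no character induced from the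
two-dimensional irreducible character `Pool.Agent.H302R2.quatChar` of a quaternion quotient of a
subgroup has a simple zero at `c`. Then the conjecture holds at `c` for every representation of `G`
over `E`. -/
theorem result {G : Type} [Group G] [Finite G] {E : Type} [Field E]
    {ζ : E} (hζ : IsPrimitiveRoot ζ (Monoid.exponent G)) {c : ℂ}
    {L : (E →+* ℂ) → (G → ℂ) → ℂ → ℂ} {P : (E →+* ℂ) → (G → ℂ) → ℂ}
    (hL : ∀ τ, ∀ χ ∈ Irr G, MeromorphicAt (L τ χ) c ∧ meromorphicOrderAt (L τ χ) c ≠ ⊤)
    (hP : ∀ τ, ∀ χ ∈ Irr G, P τ χ ≠ 0)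
    (hmon : ∀ (U : Subgroup G) (ψ : U →* Eˣ),
      Deligne L P c (ind U (fun u => ((ψ u : Eˣ) : E))))
    (τ₀ : E →+* ℂ) {deg : (G → ℂ) → ℕ} (hdeg : ∀ χ ∈ Irr G, χ 1 = deg χ)
    (hz : meromorphicOrderAt (fun s => ∏ᶠ χ ∈ Irr G, L τ₀ χ s ^ deg χ) c ≤ 2)
    (hquat : ∀ (H : Subgroup G) (f : H →* QuaternionGroup 2), Function.Surjective f →
      ∀ m : (G → ℂ) → ℕ, IsDecomp (ind H (fun h => Pool.Agent.H302R2.quatChar (f h))) m →
        meromorphicOrderAt (fun s => ∏ᶠ χ ∈ Irr G, L τ₀ χ s ^ m χ) c ≠ 1)
    {V : Type} [AddCommGroup V] [Module E V] [FiniteDimensional E V] (ρ : Representation E G V) :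
    Deligne L P c ρ.character :=
  main_two hζ hL hP hmon τ₀ hdeg hz hquat ρ

end Pool.Agent.Results.MP_cd171c_nt.DoubleZeros
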