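import Mathlib
import Pool.Agent.R389.Main

/-!
# Deligne's conjecture for all Artin twists when the zeros come from a `p`-extension
-/

set_option autoImplicit false

namespace Pool.Agent.Results.MP_cd171c_nt.OldZeros

open Pool.Agent.R389 Pool.Agent.H541R3.ART

/-- Suppose Deligne's conjecture holds at `c` for the characters induced from linear characters of
hyperelementary subgroups of `G`, and that for one embedding `τ₀` the order of vanishing at `c` of
the L-function of the regular character is at most the maximum of `1` and the order of its part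
over the characters which are a multiple of `lam` on a normal subgroup `K` with `G / K` a
`p`-group. Then the conjecture holds at `c` for every representation of `G` over `E`. -/
theorem result {G : Type} [Group G] [Finite G] {E : Type} [Field E]
    {ζ : E} (hζ : IsPrimitiveRoot ζ (Monoid.exponent G)) {c : ℂ}
    {L : (E →+* ℂ) → (G → ℂ) → ℂ → ℂ} {P : (E →+* ℂ) → (G → ℂ) → ℂ}
    (hL : ∀ τ, ∀ χ ∈ Irr G, MeromorphicAt (L τ χ) c ∧ meromorphicOrderAt (L τ χ) c ≠ ⊤)
    (hP : ∀ τ, ∀ χ ∈ Irr G, P τ χ ≠ 0)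
    (hmon : ∀ (U : Subgroup G) (ψ : U →* Eˣ), Hyper U →
      Deligne L P c (ind U (fun u => ((ψ u : Eˣ) : E))))
    (τ₀ : E →+* ℂ) {deg : (G → ℂ) → ℕ} (hdeg : ∀ χ ∈ Irr G, χ 1 = deg χ)
    {p : ℕ} (hp : p.Prime) (K : Subgroup G) [K.Normal] (hK : IsPGroup p (G ⧸ K))
    (lam : G →* ℂˣ)
    (hz : meromorphicOrderAt (fun s => ∏ᶠ χ ∈ Irr G, L τ₀ χ s ^ deg χ) c ≤ max 1
      (meromorphicOrderAt (fun s => ∏ᶠ χ ∈ {χ ∈ Irr G | ∀ k ∈ K, χ k = χ 1 * ((lam k : ℂˣ) : ℂ)},
        L τ₀ χ s ^ deg χ) c))
    {V : Type} [AddCommGroup V] [Module E V] [FiniteDimensional E V] (ρ : Representation E G V) :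
    Deligne L P c ρ.character :=
  main hζ hL hP hmon τ₀ hdeg hp K hK lam hz ρ

end Pool.Agent.Results.MP_cd171c_nt.OldZeros
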