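import Mathlib
import Pool.Agent.R389.SmallMain

/-!
# Small growth of the order of vanishing in solvable extensions
-/

set_option autoImplicit false

namespace Pool.Agent.Results.MP_cd171c_nt.SmallGrowth

open Pool.Agent.R389 Pool.Agent.H541R3.ART

/-- Suppose Deligne's conjecture holds at `c` for the characters induced from linear characters of
solvable subgroups of `G`. Let `N` be a solvable normal subgroup with a linear character `lam`, and
suppose that for one embedding `τ₀` the order of vanishing at `c` of the L-function of the regular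
character of `G` exceeds the order for the character induced from `lam` by less than every prime
divisor of the order of `N`. If the conjecture holds at `c` for the representations which are
trivial on the commutator subgroup of `N`, then it holds at `c` for every representation of `G`
over `E`. -/
theorem result {G : Type} [Group G] [Finite G] {E : Type} [Field E]
    {ζ : E} (hζ : IsPrimitiveRoot ζ (Monoid.exponent G)) {c : ℂ}
    {L : (E →+* ℂ) → (G → ℂ) → ℂ → ℂ} {P : (E →+* ℂ) → (G → ℂ) → ℂ}
    (hL : ∀ τ, ∀ χ ∈ Irr G, MeromorphicAt (L τ χ) c ∧ meromorphicOrderAt (L τ χ) c ≠ ⊤)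
    (hP : ∀ τ, ∀ χ ∈ Irr G, P τ χ ≠ 0)
    (hmon : ∀ (U : Subgroup G) (ψ : U →* Eˣ), Group.IsSolvable U →
      Deligne L P c (ind U (fun u => ((ψ u : Eˣ) : E))))
    (τ₀ : E →+* ℂ) {deg : (G → ℂ) → ℕ} (hdeg : ∀ χ ∈ Irr G, χ 1 = deg χ)
    (N : Subgroup G) [N.Normal] (hN : Group.IsSolvable N) (lam : N →* ℂˣ) {m : (G → ℂ) → ℕ}
    (hm : IsDecomp (ind N (fun x => ((lam x : ℂˣ) : ℂ))) m)
    (hz : ∀ p : ℕ, p.Prime → p ∣ Nat.card N →
      meromorphicOrderAt (fun s => ∏ᶠ χ ∈ Irr G, L τ₀ χ s ^ deg χ) c <
      meromorphicOrderAt (fun s => ∏ᶠ χ ∈ Irr G, L τ₀ χ s ^ m χ) c + p)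
    (hold : ∀ (W : Type) [AddCommGroup W] [Module E W] [FiniteDimensional E W]
      (σ : Representation E G W), (∀ k ∈ ⁅N, N⁆, ∀ w, σ k w = w) →
      Deligne L P c σ.character)
    {V : Type} [AddCommGroup V] [Module E V] [FiniteDimensional E V] (ρ : Representation E G V) :
    Deligne L P c ρ.character :=
  main_small hζ hL hP hmon τ₀ hdeg N hN lam hm hz hold ρ

end Pool.Agent.Results.MP_cd171c_nt.SmallGrowth
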