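import Pool.Agent.R409.RD.Sh

/-!
# The values `L(M, s₀)` and the reciprocity law from finite sums of traces of Frobenius, for motives with
coefficients in a totally real field

Let `E` be a totally real number field and `M` a motive over `ℚ` with coefficients in `E`, pure of odd
weight `w`. Deligne's conjecture says that `L(M, s₀) = (L(σ, M, s₀))_σ` is `c⁺(M, s₀)` times an element
of `E`, for all critical `s₀`. The critical points to the right of the central point `(w + 1)/2` are in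
the region of absolute convergence; the central point is critical for every `M`, and neither the Euler
product nor a functional equation gives the value there. We prove for all integers `s₀`, assuming only
that `L(σ, M, s)` is meromorphic on the real segment `[s₀, w/2 + 1]`: for `γ > π/2`,
`θ > w/2 + 1 - s₀`, `θ > 0` and `κ_γ(u) = e^{iγu} / Γ(1 + u)` the finite sums

`V_σ(T) = ∑ κ_γ(k log p / T) σ(Tr(Frob_p^k | M)) p^{-k s₀} / k`, `p^k ≤ exp (exp (θ T))`,

satisfy `L(σ, M, s₀) = lim exp V_σ(T)`. So Deligne's conjecture for `M` and `s₀` says that there is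
`x ∈ E` with `exp V_σ(T) → σ(x) c_σ` for all `σ`. The orders of vanishing of `L(σ, M, s)` and
`L(τ, M, s)` at `s₀` are equal if and only if `Re (V_σ(T) - V_τ(T))` is bounded for one sequence
`T_k → ∞`, so that the part of the conjecture which says that the vanishing of `L(σ, M, s₀)` does not
depend on `σ` can be read off from these sums as well.
-/

set_option autoImplicit false

namespace Pool.Agent.Results.MP_cd171c_nt.TotallyRealCoefficients

open Filter Topology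

section defs

variable {E : Type} [Field E]

/-- `α_{σ,p,1}, …, α_{σ,p,N}`, for `σ : E → ℝ`, are the parameters of the Euler factors of a motive of
rank `N` and weight `w` over `ℚ` with coefficients in `E`: the zeros of `σ(P_p)`, where `P_p ∈ E[X]` is
the characteristic polynomial of the geometric Frobenius on `M_λ^{I_p}` times a power of `X`. They have
absolute value at most `p^{w/2}`. -/
def IsParameter (w : ℤ) {N : ℕ} (α : (E →+* ℝ) → Nat.Primes → Fin N → ℂ) : Prop :=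
  (∀ σ p j, ‖α σ p j‖ ≤ ((p : ℕ) : ℝ) ^ ((w : ℝ) / 2)) ∧
    ∀ p, ∃ P : Polynomial E, ∀ σ : E →+* ℝ,
      P.map ((algebraMap ℝ ℂ).comp σ) = ∏ j, (Polynomial.X - Polynomial.C (α σ p j))

/-- The L-function `L(s) = ∏_p ∏_j (1 - a_{p,j} p^{-s})⁻¹`. -/
noncomputable def LFun {N : ℕ} (a : Nat.Primes → Fin N → ℂ) (s : ℂ) : ℂ :=
  ∏' p : Nat.Primes, ∏ j, (1 - a p j * ((p : ℕ) : ℂ) ^ (-s))⁻¹

/-- `F` is meromorphic at the points of the real segment `[s₀, w/2 + 1]`, and it is the L-function for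
`Re s > w/2 + 1`. -/
def IsContinuation (w s₀ : ℤ) {N : ℕ} (a : Nat.Primes → Fin N → ℂ) (F : ℂ → ℂ) : Prop :=
  (∀ x : ℝ, s₀ ≤ x → x ≤ (w : ℝ) / 2 + 1 → MeromorphicAt F (x : ℂ)) ∧
    ∀ s : ℂ, (w : ℝ) / 2 + 1 < s.re → F s = LFun a s

/-- The weight `κ_γ(u) = e^{iγu} / Γ(1 + u)`. -/
noncomputable def weight (γ u : ℝ) : ℂ :=
  Complex.exp (Complex.I * (γ * u)) / Complex.Gamma (1 + u)

/-- `V(T) = ∑ κ_γ(k log p / T) (∑_j a_{p,j}^k) p^{-k s₀} / k`, the sum over the prime powers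
`p^k ≤ exp (exp (θ T))`, `k ≥ 1`. -/
noncomputable def traceSum (s₀ : ℤ) {N : ℕ} (a : Nat.Primes → Fin N → ℂ) (γ θ T : ℝ) : ℂ :=
  ∑ᶠ x ∈ {x : Nat.Primes × ℕ | 1 ≤ x.2 ∧ ((x.1 : ℕ) : ℝ) ^ x.2 ≤ Real.exp (Real.exp (θ * T))},
    weight γ (x.2 * Real.log (x.1 : ℕ) / T) *
      ((∑ j, a x.1 j ^ x.2) * (((x.1 : ℕ) : ℂ) ^ s₀)⁻¹ ^ x.2) / x.2

/-- `Λ_γ = ∫_0^∞ (e^{-t} - e^{iγt} / Γ(1 + t)) dt / t`. -/
noncomputable def lam (γ : ℝ) : ℂ :=
  ∫ t in Set.Ioi (0 : ℝ), (Real.exp (-t) - weight γ t) / t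

/-- The number of the real zeros minus the number of the real poles of `F` to the right of `s₀`, with
multiplicities. -/
noncomputable def excess (s₀ : ℤ) (F : ℂ → ℂ) : ℤ :=
  ∑ᶠ x ∈ Set.Ioi (s₀ : ℝ), (meromorphicOrderAt F (x : ℂ)).untop₀

end defs

section bridge

open Pool.Agent.R409.RC Pool.Agent.R409.RD

variable {E : Type} [Field E] {N : ℕ} {w s₀ : ℤ} {α : (E →+* ℝ) → Nat.Primes → Fin N → ℂ}
  {F : ℂ → ℂ}

theorem weight_eq {γ u : ℝ} : weight γ u = Pool.Agent.W187.S2.kk γ u := by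
  unfold weight Pool.Agent.W187.S2.kk Pool.Agent.W189.ML.om
  have h1 : Complex.Gamma (1 + u) = ((Real.Gamma (1 + u) : ℝ) : ℂ) := by
    rw [← Complex.Gamma_ofReal]
    push_cast
    rfl
  rw [h1, div_eq_mul_inv]
  push_cast
  congr 2
  ring

theorem lam_eq (γ : ℝ) : lam γ = Pool.Agent.W187.UR.Lam γ := by
  unfold lam Pool.Agent.W187.UR.Lam
  refine MeasureTheory.integral_congr_ae (Filter.Eventually.of_forall fun t => ?_)
  simp only
  rw [weight_eq]
  unfold Pool.Agent.W187.S2.kk Pool.Agent.W189.ML.om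
  push_cast
  rfl

/-- the norms -/
noncomputable def qp (p : Nat.Primes) : ℝ := ((p : ℕ) : ℝ)

theorem wd (h : IsParameter w α) (σ : E →+* ℝ) : WD (w : ℝ) qp (α σ) where
  two_le := fun p => by
    unfold qp
    exact_mod_cast p.2.two_le
  sum := fun σ hσ => Nat.Primes.summable_rpow.2 (by linarith)
  norm_le := h.1 σ
  real := fun p => by
    obtain ⟨P, hP⟩ := h.2 p
    refine RealPoly.ci ⟨P.map σ, ?_⟩
    rw [← hP, Polynomial.map_map]

theorem traceSum_eq (a : Nat.Primes → Fin N → ℂ) (γ θ T : ℝ) :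
    traceSum s₀ a γ θ T = ∑ᶠ x ∈ {x : Nat.Primes × ℕ | 1 ≤ x.2 ∧
      qp x.1 ^ x.2 ≤ Real.exp (Real.exp (θ * T))}, pterm qp (shp (s₀ : ℝ) qp a) γ T x.1 x.2 := by
  unfold traceSum
  refine finsum_mem_congr rfl fun x _ => ?_
  have hp : (0 : ℝ) < ((x.1 : ℕ) : ℝ) := by exact_mod_cast x.1.2.pos
  have h1 : (((qp x.1) ^ (-(s₀ : ℝ)) : ℝ) : ℂ) = (((x.1 : ℕ) : ℂ) ^ s₀)⁻¹ := by
    unfold qp
    rw [Real.rpow_neg hp.le, Real.rpow_intCast]
    push_cast
    rfl
  unfold pterm shp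
  simp only [h1, mul_pow]
  rw [← Finset.sum_mul, weight_eq]
  unfold Pool.Agent.W187.S2.kk qp
  push_cast
  ring

/-- two laws: equality of the orders from the difference of the sums along a sequence -/
theorem orders_eq {V W : ℝ → ℂ} {m n : ℤ} {a b Λ : ℂ} (hV : Law V m a Λ) (hW : Law W n b Λ) :
    (m = n → ∃ C T₀ : ℝ, ∀ T : ℝ, T₀ ≤ T → |(V T - W T).re| ≤ C) ∧
    ((∃ C : ℝ, ∃ T : ℕ → ℝ, Tendsto T atTop atTop ∧ ∀ k, |(V (T k) - W (T k)).re| ≤ C) →
      m = n) := by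
  have hd : Tendsto (fun T => (V T - (a - m * (Real.log T - Λ))) -
      (W T - (b - n * (Real.log T - Λ)))) atTop (𝓝 0) := by
    have := hV.tendsto.sub hW.tendsto
    rwa [sub_zero] at this
  have hd' : Tendsto (fun T => (V T - W T).re + ((m : ℝ) - n) * Real.log T) atTop
      (𝓝 ((a - b) + ((m : ℂ) - n) * Λ).re) := by
    have h1 := (Complex.continuous_re.tendsto 0).comp hd
    have h2 := h1.add_const ((a - b) + ((m : ℂ) - n) * Λ).re
    rw [Complex.zero_re, zero_add] at h2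
    refine h2.congr fun T => ?_
    simp only [Function.comp_apply, Complex.sub_re, Complex.add_re, Complex.mul_re,
      Complex.intCast_re, Complex.intCast_im, Complex.ofReal_re, Complex.sub_im,
      Complex.ofReal_im]
    ring
  constructor
  · rintro rfl
    simp only [sub_self, zero_mul, add_zero] at hd'
    have h1 : ∀ᶠ T in atTop, |(V T - W T).re| < |(a - b).re| + 1 := by
      have h2 := hd'.abs
      exact h2.eventually (gt_mem_nhds (by linarith))
    obtain ⟨T₀, hT₀⟩ := eventually_atTop.1 h1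
    exact ⟨_, T₀, fun T hT => (hT₀ T hT).le⟩
  · rintro ⟨C, T, hT, hC⟩
    by_contra hmn
    have hne : ((m : ℝ) - n) ≠ 0 := by
      intro h
      exact hmn (by exact_mod_cast (sub_eq_zero.1 h))
    have h1 := hd'.comp hT
    have h2 : Tendsto (fun k => |((m : ℝ) - n) * Real.log (T k)|) atTop atTop := by
      simp only [abs_mul]
      exact (tendsto_abs_atTop_atTop.comp (Real.tendsto_log_atTop.comp hT)).const_mul_atTop
        (abs_pos.2 hne)
    have h3 := h1.abs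
    have h4 : ∀ k, |((m : ℝ) - n) * Real.log (T k)| - C ≤
        |(V (T k) - W (T k)).re + ((m : ℝ) - n) * Real.log (T k)| := by
      intro k
      have h5 := hC k
      have h6 := abs_sub_abs_le_abs_sub (((m : ℝ) - n) * Real.log (T k)) (-(V (T k) - W (T k)).re)
      rw [abs_neg, sub_neg_eq_add, add_comm] at h6
      linarith
    have h5 : Tendsto (fun k => |(V (T k) - W (T k)).re + ((m : ℝ) - n) * Real.log (T k)|)
        atTop atTop := tendsto_atTop_mono h4 (tendsto_atTop_add_const_right _ (-C) h2)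
    exact not_tendsto_nhds_of_tendsto_atTop h5 _ h3

end bridge

/-- **The values `L(M, s₀)` from finite sums of traces of Frobenius.** Let `E` be a totally real number
field, `α` the parameters of the Euler factors of a motive of weight `w` (odd or even) over `ℚ` with
coefficients in `E`, `s₀` an integer, and for every `σ : E → ℝ` let `F_σ` be a continuation of `L(σ, M, s)` which is
meromorphic on the real segment `[s₀, w/2 + 1]`. Then for all `γ > π/2`, `θ > w/2 + 1 - s₀`, `θ > 0`: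

* `F_σ` has a finite order `r_σ` and a real leading coefficient `l_σ ≠ 0` at `s₀`, and
  `V_σ(T) = log |l_σ| - π i n_σ - r_σ (log T - Λ_γ) + O(1/T)`;
* `F_σ(s) → b` for `s → s₀` if and only if `exp V_σ(T) → b` for `T → ∞`;
* `r_σ = r_τ` if `Re (V_σ(T_k) - V_τ(T_k))` is bounded for one sequence `T_k → ∞`, and if `r_σ = r_τ`,
  then `Re (V_σ(T) - V_τ(T))` is bounded;
* for every family `(c_σ)` there is `x ∈ E` with `F_σ(s₀) = σ(x) c_σ` for all `σ` if and only if there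
  is `x ∈ E` with `exp V_σ(T) → σ(x) c_σ` for all `σ`. -/
theorem result (E : Type) [Field E] [NumberField E] [NumberField.IsTotallyReal E] (w s₀ : ℤ)
    (N : ℕ) (α : (E →+* ℝ) → Nat.Primes → Fin N → ℂ) (_ : IsParameter w α)
    (F : (E →+* ℝ) → ℂ → ℂ) (_ : ∀ σ, IsContinuation w s₀ (α σ) (F σ)) (γ θ : ℝ)
    (_ : Real.pi / 2 < γ) (_ : (w : ℝ) / 2 + 1 - s₀ < θ) (_ : 0 < θ) :
    (∀ σ, ∃ (r : ℤ) (l : ℝ), l ≠ 0 ∧ meromorphicOrderAt (F σ) s₀ = r ∧
      meromorphicTrailingCoeffAt (F σ) s₀ = l ∧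
      ∃ C T₀ : ℝ, ∀ T : ℝ, T₀ ≤ T →
        ‖traceSum s₀ (α σ) γ θ T -
          (Real.log |l| - Real.pi * Complex.I * excess s₀ (F σ) - r * (Real.log T - lam γ))‖ ≤
            C / T) ∧
    (∀ σ, ∀ b : ℂ, Tendsto (F σ) (𝓝[≠] s₀) (𝓝 b) ↔
      Tendsto (fun T : ℝ => Complex.exp (traceSum s₀ (α σ) γ θ T)) atTop (𝓝 b)) ∧
    (∀ σ τ, (meromorphicOrderAt (F σ) s₀ = meromorphicOrderAt (F τ) s₀ → ∃ C T₀ : ℝ, ∀ T : ℝ,
        T₀ ≤ T → |(traceSum s₀ (α σ) γ θ T - traceSum s₀ (α τ) γ θ T).re| ≤ C) ∧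
      ((∃ C : ℝ, ∃ T : ℕ → ℝ, Tendsto T atTop atTop ∧ ∀ k,
        |(traceSum s₀ (α σ) γ θ (T k) - traceSum s₀ (α τ) γ θ (T k)).re| ≤ C) →
          meromorphicOrderAt (F σ) s₀ = meromorphicOrderAt (F τ) s₀)) ∧
    ∀ c : (E →+* ℝ) → ℂ, (∃ x : E, ∀ σ, Tendsto (F σ) (𝓝[≠] s₀) (𝓝 (σ x * c σ))) ↔
      ∃ x : E, ∀ σ, Tendsto (fun T : ℝ => Complex.exp (traceSum s₀ (α σ) γ θ T)) atTop
        (𝓝 (σ x * c σ)) := by
  rename_i hα hF hγ hθ hθ0
  have key : ∀ σ, ∃ (m : ℤ) (l : ℝ), l ≠ 0 ∧ MeromorphicAt (F σ) (s₀ : ℂ) ∧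
      meromorphicOrderAt (F σ) (s₀ : ℂ) = m ∧ meromorphicTrailingCoeffAt (F σ) (s₀ : ℂ) = l ∧
      Complex.exp (Real.log |l| - Real.pi * excess s₀ (F σ) * Complex.I) = l ∧
      Pool.Agent.R409.RC.Law (traceSum s₀ (α σ) γ θ) m
        (Real.log |l| - Real.pi * excess s₀ (F σ) * Complex.I) (Pool.Agent.W187.UR.Lam γ) := by
    intro σ
    have h0 : (((s₀ : ℝ) : ℝ) : ℂ) = (s₀ : ℂ) := by push_cast; rfl
    obtain ⟨m, l, h1, h2, h3, h4, h5, h6⟩ := (wd hα σ).law_at (s₀ : ℝ) (hF σ).1 fun s hs => by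
      rw [(hF σ).2 s hs]
      rfl
    rw [h0] at h2 h3 h4
    refine ⟨m, l, h1, h2, h3, h4, h5, ?_⟩
    have h7 := h6 γ θ hγ hθ hθ0
    have h8 : traceSum s₀ (α σ) γ θ = fun T => ∑ᶠ x ∈ {x : Nat.Primes × ℕ | 1 ≤ x.2 ∧
        qp x.1 ^ x.2 ≤ Real.exp (Real.exp (θ * T))},
        Pool.Agent.R409.RC.pterm qp (Pool.Agent.R409.RD.shp (s₀ : ℝ) qp (α σ)) γ T x.1 x.2 := by
      funext T
      exact traceSum_eq (α σ) γ θ T
    rw [h8]
    exact h7
  have hval : ∀ σ, ∀ b : ℂ, Tendsto (F σ) (𝓝[≠] s₀) (𝓝 b) ↔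
      Tendsto (fun T : ℝ => Complex.exp (traceSum s₀ (α σ) γ θ T)) atTop (𝓝 b) := by
    intro σ b
    obtain ⟨m, l, h1, h2, h3, h4, h5, h6⟩ := key σ
    exact Pool.Agent.R409.RD.value_iff h6 h2 h3 (by rw [h5, h4]) b
  refine ⟨fun σ => ?_, hval, fun σ τ => ?_, fun c => ?_⟩
  · obtain ⟨m, l, h1, h2, h3, h4, h5, C, T₀, hC, hT₀, hT⟩ := key σ
    refine ⟨m, l, h1, h3, h4, C, T₀, fun T h => ?_⟩
    rw [lam_eq]
    refine le_trans (le_of_eq ?_) (hT T h)
    congr 1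
    ring
  · obtain ⟨m, l, h1, h2, h3, h4, h5, h6⟩ := key σ
    obtain ⟨m', l', h1', h2', h3', h4', h5', h6'⟩ := key τ
    obtain ⟨h7, h8⟩ := orders_eq h6 h6'
    rw [h3, h3']
    exact ⟨fun h => h7 (by exact_mod_cast h), fun h => by rw [h8 h]⟩
  · exact ⟨fun ⟨x, hx⟩ => ⟨x, fun σ => (hval σ _).1 (hx σ)⟩,
      fun ⟨x, hx⟩ => ⟨x, fun σ => (hval σ _).2 (hx σ)⟩⟩

end Pool.Agent.Results.MP_cd171c_nt.TotallyRealCoefficients
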